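import Pool.Agent.Q17.Para.Ord

open Topology Set

namespace Pool.Agent.Results.MP_39d387_al

/-- Pseudocompact (no separation axiom): every locally finite family of nonempty open sets is
finite. -/
def Pseudocompact (X : Type) [TopologicalSpace X] : Prop :=
  ∀ F : Set (Set X), (∀ O ∈ F, IsOpen O ∧ O.Nonempty) →
    (∀ x : X, ∃ U ∈ 𝓝 x, {O ∈ F | (O ∩ U).Nonempty}.Finite) → F.Finite

/-- `2`-pseudocompact: for every non-increasing sequence `U n` of nonempty open sets, the closures
of the sets `(U n)⁻¹` have a common point. -/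
def TwoPseudocompact (G : Type) [Group G] [TopologicalSpace G] : Prop :=
  ∀ U : ℕ → Set G, (∀ n, IsOpen (U n)) → (∀ n, (U n).Nonempty) → (∀ n, U (n + 1) ⊆ U n) →
    (⋂ n, closure {x | x⁻¹ ∈ U n}).Nonempty

/-- Negative answer to Q1: there is a (Hausdorff, abelian) paratopological group which is
pseudocompact and Baire but not `2`-pseudocompact. -/
theorem BaireNotTwo.result : ∃ (G : Type) (_ : CommGroup G) (_ : TopologicalSpace G),
    ContinuousMul G ∧ T2Space G ∧ Pseudocompact G ∧ BaireSpace G ∧ ¬ TwoPseudocompact G := by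
  obtain ⟨f, hf⟩ := Q17.Para.exists_hom
  have hunb : Q17.Para.Unb f := fun h => by
    obtain ⟨x, hx⟩ := hf h
    exact ⟨x, hx.ge⟩
  refine ⟨Q17.Para.Q f, inferInstance, inferInstance, inferInstance, inferInstance,
    Q17.Para.feebly hunb, Q17.Para.baire hunb, fun htwo => ?_⟩
  obtain ⟨U, h1, h2, h3, h4⟩ := Q17.Para.not_two hunb
  have := htwo U h1 h2 h3
  rw [h4] at this
  exact Set.not_nonempty_empty this

end Pool.Agent.Results.MP_39d387_al
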